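import Mathlib
import Pool.Agent.H.MP_903b9e_co.Basic

set_option autoImplicit false

namespace Pool.Agent.Results.MP_903b9e_co.Full

open SimpleGraph Pool.Agent.H.MP_903b9e_co

/-- the integer lattice: adjacent when differing by exactly one in exactly one coordinate -/
def lattice (k : ℕ) : SimpleGraph (Fin k → ℤ) where
  Adj x y := ∃ i, |x i - y i| = 1 ∧ ∀ j, j ≠ i → x j = y j
  symm := ⟨fun _ _ ⟨i, h1, h2⟩ => ⟨i, by rw [abs_sub_comm]; exact h1, fun j hj => (h2 j hj).symm⟩⟩
  loopless := ⟨fun _ ⟨i, h1, _⟩ => by simp at h1⟩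

/-- no three vertices of `S` lie on a common shortest path -/
def GenPos {W : Type} (H : SimpleGraph W) (S : Set W) : Prop :=
  ∀ (u v : W) (p : H.Walk u v), p.length = H.dist u v →
    ¬ ∃ a ∈ S, ∃ b ∈ S, ∃ c ∈ S, a ≠ b ∧ a ≠ c ∧ b ≠ c ∧
      a ∈ p.support ∧ b ∈ p.support ∧ c ∈ p.support

/-- a legal move -/
def Move {W : Type} (H : SimpleGraph W) (S T : Set W) : Prop :=
  ∃ u ∈ S, ∃ v, v ∉ S ∧ H.Adj u v ∧ T = insert v (S \ {u}) ∧ GenPos H T

/-- mobile general position set (finite or infinite sequence of legal moves) -/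
def Mobile {W : Type} (H : SimpleGraph W) (S : Set W) : Prop :=
  GenPos H S ∧ ∃ f : ℕ → Set W, f 0 = S ∧ (∀ n, Move H (f n) (f (n + 1)) ∨ f (n + 1) = f n) ∧
    ∀ v, ∃ n, v ∈ f n

variable {k : ℕ}

def d (x y : Fin k → ℤ) : ℤ := ∑ i, |x i - y i|

lemma d_tri (x y z : Fin k → ℤ) : d x z ≤ d x y + d y z := by
  unfold d
  rw [← Finset.sum_add_distrib]
  exact Finset.sum_le_sum (fun i _ => abs_sub_le _ _ _)

lemma d_adj {x y : Fin k → ℤ} (h : (lattice k).Adj x y) : d x y = 1 := by
  obtain ⟨i, h1, h2⟩ := h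
  unfold d
  rw [Finset.sum_eq_single i (fun j _ hj => by simp [h2 j hj]) (by simp), h1]

lemma d_le {x y : Fin k → ℤ} (p : (lattice k).Walk x y) : d x y ≤ p.length := by
  induction p with
  | nil => simp [d]
  | cons h p ih =>
    rename_i a b c
    have := d_tri a b c
    rw [d_adj h] at this
    simp only [Walk.length_cons]; push_cast; linarith

lemma ex_walk (n : ℕ) : ∀ x y : Fin k → ℤ, d x y = n → ∃ p : (lattice k).Walk x y, p.length = n := by
  induction n with
  | zero =>
    intro x y h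
    have : x = y := by
      funext i
      have := (Finset.sum_eq_zero_iff_of_nonneg (fun i _ => abs_nonneg (x i - y i))).mp h i
        (Finset.mem_univ i)
      exact sub_eq_zero.mp (abs_eq_zero.mp this)
    subst this
    exact ⟨Walk.nil, rfl⟩
  | succ n ih =>
    intro x y h
    have : ∃ i, x i ≠ y i := by
      by_contra hc
      push Not at hc
      simp [d, hc] at h
      omega
    obtain ⟨i, hi⟩ := this
    set z := Function.update x i (if x i < y i then x i + 1 else x i - 1) with hz
    have hadj : (lattice k).Adj x z := ⟨i, by simp only [hz, Function.update_self]; split_ifs <;> simp,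
      fun j hj => by simp [hz, hj]⟩
    have hd : d z y = n := by
      unfold d at h ⊢
      rw [← Finset.add_sum_erase _ _ (Finset.mem_univ i)] at h ⊢
      have e : ∑ j ∈ Finset.univ.erase i, |z j - y j| = ∑ j ∈ Finset.univ.erase i, |x j - y j| :=
        Finset.sum_congr rfl (fun j hj => by simp [hz, Finset.ne_of_mem_erase hj])
      rw [e]
      have e2 : |z i - y i| + 1 = |x i - y i| := by
        simp only [hz, Function.update_self]
        split_ifs with h1
        · rw [abs_of_nonpos (by omega), abs_of_nonpos (by omega)]; ring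
        · rw [abs_of_nonneg (by omega), abs_of_nonneg (by omega)]; ring
      push_cast at h
      linarith
    obtain ⟨p, hp⟩ := ih z y hd
    exact ⟨Walk.cons hadj p, by simp [hp]⟩

lemma ex_walk' (x y : Fin k → ℤ) : ∃ p : (lattice k).Walk x y, (p.length : ℤ) = d x y := by
  have h0 : 0 ≤ d x y := Finset.sum_nonneg (fun i _ => abs_nonneg _)
  obtain ⟨p, hp⟩ := ex_walk (d x y).toNat x y (by omega)
  exact ⟨p, by omega⟩

lemma dist_eq (x y : Fin k → ℤ) : ((lattice k).dist x y : ℤ) = d x y := by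
  obtain ⟨p, hp⟩ := ex_walk' x y
  obtain ⟨q, hq⟩ := p.reachable.exists_walk_length_eq_dist
  have h1 := SimpleGraph.dist_le p
  have h2 := d_le q
  omega

lemma btw_iff (a b c : Fin k → ℤ) : Btw a b c ↔ d a b + d b c = d a c := by
  unfold d
  rw [← Finset.sum_add_distrib]
  constructor
  · intro h
    refine Finset.sum_congr rfl (fun i _ => ?_)
    rcases h i with h | h
    · rw [abs_of_nonpos (by omega), abs_of_nonpos (by omega), abs_of_nonpos (by omega)]; ring
    · rw [abs_of_nonneg (by omega), abs_of_nonneg (by omega), abs_of_nonneg (by omega)]; ring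
  · intro h i
    have := (Finset.sum_eq_sum_iff_of_le (fun i _ => abs_sub_le (a i) (b i) (c i))).mp h.symm i
      (Finset.mem_univ i)
    rcases abs_cases (a i - c i) with h1 | h1 <;> rcases abs_cases (a i - b i) with h2 | h2 <;>
      rcases abs_cases (b i - c i) with h3 | h3 <;> omega

lemma gv {u v : Fin k → ℤ} (p : (lattice k).Walk u v) (i m : ℕ) :
    d (p.getVert i) (p.getVert (i + m)) ≤ m := by
  induction m with
  | zero => simp [d]
  | succ m ih =>
    have := d_tri (p.getVert i) (p.getVert (i + m)) (p.getVert (i + m + 1))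
    have h2 : d (p.getVert (i + m)) (p.getVert (i + m + 1)) ≤ 1 := by
      by_cases h : i + m < p.length
      · exact (d_adj (p.adj_getVert_succ h)).le
      · rw [p.getVert_of_length_le (by omega), p.getVert_of_length_le (by omega)]; simp [d]
    rw [← add_assoc]; push_cast; linarith

lemma gv_btw {u v : Fin k → ℤ} (p : (lattice k).Walk u v) (hp : p.length = (lattice k).dist u v)
    (i j l : ℕ) (h1 : i ≤ j) (h2 : j ≤ l) (h3 : l ≤ p.length) :
    Btw (p.getVert i) (p.getVert j) (p.getVert l) := by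
  rw [btw_iff]
  obtain ⟨m1, rfl⟩ := Nat.exists_eq_add_of_le h1
  obtain ⟨m2, rfl⟩ := Nat.exists_eq_add_of_le h2
  obtain ⟨m3, h4⟩ := Nat.exists_eq_add_of_le h3
  have a0 := gv p 0 i
  have a1 := gv p i m1
  have a2 := gv p (i + m1) m2
  have a3 := gv p (i + m1 + m2) m3
  rw [← h4, p.getVert_length] at a3
  rw [p.getVert_zero, zero_add] at a0
  have t1 := d_tri u (p.getVert i) v
  have t2 := d_tri (p.getVert i) (p.getVert (i + m1 + m2)) v
  have t3 := d_tri (p.getVert i) (p.getVert (i + m1)) (p.getVert (i + m1 + m2))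
  have := dist_eq u v
  omega

lemma genpos_iff (S : Set (Fin k → ℤ)) : GenPos (lattice k) S ↔
    ∀ a ∈ S, ∀ b ∈ S, ∀ c ∈ S, a ≠ b → a ≠ c → b ≠ c → ¬ Btw a b c := by
  constructor
  · intro h a ha b hb c hc h1 h2 h3 hB
    obtain ⟨p, hp⟩ := ex_walk' a b
    obtain ⟨q, hq⟩ := ex_walk' b c
    rw [btw_iff] at hB
    have := dist_eq a c
    exact h a c (p.append q) (by rw [Walk.length_append]; omega)
      ⟨a, ha, b, hb, c, hc, h1, h2, h3, by simp, by simp, by simp⟩
  · rintro h u v p hp ⟨a, ha, b, hb, c, hc, h1, h2, h3, m1, m2, m3⟩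
    obtain ⟨i, rfl, hi⟩ := Walk.mem_support_iff_exists_getVert.mp m1
    obtain ⟨j, rfl, hj⟩ := Walk.mem_support_iff_exists_getVert.mp m2
    obtain ⟨l, rfl, hl⟩ := Walk.mem_support_iff_exists_getVert.mp m3
    rcases le_total i j with e1 | e1 <;> rcases le_total j l with e2 | e2 <;>
      rcases le_total i l with e3 | e3
    · exact h _ ha _ hb _ hc h1 h2 h3 (gv_btw p hp i j l e1 e2 hl)
    · exact h _ ha _ hb _ hc h1 h2 h3 (gv_btw p hp i j l e1 e2 hl)
    · exact h _ ha _ hc _ hb h2 h1 h3.symm (gv_btw p hp i l j e3 e2 hj)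
    · exact h _ hc _ ha _ hb h2.symm h3.symm h1 (gv_btw p hp l i j e3 e1 hj)
    · exact h _ hb _ ha _ hc h1.symm h3 h2 (gv_btw p hp j i l e1 e3 hl)
    · exact h _ hb _ hc _ ha h3 h1.symm h2.symm (gv_btw p hp j l i e2 e3 hi)
    · exact h _ hc _ hb _ ha h3.symm h2.symm h1.symm (gv_btw p hp l j i e2 e1 hi)
    · exact h _ hc _ hb _ ha h3.symm h2.symm h1.symm (gv_btw p hp l j i e2 e1 hi)

variable {ι : Type}

lemma good_gp {x : ι → Fin k → ℤ} (h : Good x) : GenPos (lattice k) (Set.range x) := by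
  rw [genpos_iff]
  rintro _ ⟨r, rfl⟩ _ ⟨s, rfl⟩ _ ⟨t, rfl⟩ h1 h2 h3
  exact h.2 r s t (fun e => h1 (by rw [e])) (fun e => h2 (by rw [e])) (fun e => h3 (by rw [e]))

lemma good_map {x : ι → Fin k → ℤ} (h : Good x) (g : Fin k → ℤ → ℤ) (hg : ∀ i, StrictMono (g i)) :
    Good (fun r i => g i (x r i)) := by
  refine ⟨fun i r s e => h.1 i r s ((hg i).injective e), fun r s t h1 h2 h3 hB => ?_⟩
  refine h.2 r s t h1 h2 h3 (fun i => ?_)
  simpa only [(hg i).le_iff_le] using hB i

lemma step (i0 : Fin k) {x y : ι → Fin k → ℤ} (hx : Good x) (hy : Good y) (r0 : ι)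
    (h1 : (lattice k).Adj (x r0) (y r0)) (h2 : ∀ r, r ≠ r0 → x r = y r) :
    Move (lattice k) (Set.range x) (Set.range y) := by
  refine ⟨x r0, ⟨r0, rfl⟩, y r0, ?_, h1, ?_, good_gp hy⟩
  · rintro ⟨r, hr⟩
    by_cases e : r = r0
    · rw [e] at hr; exact h1.ne hr
    · rw [h2 r e] at hr
      exact e (hy.1 i0 _ _ (congrFun hr i0))
  · ext z
    simp only [Set.mem_range, Set.mem_insert_iff, Set.mem_sdiff, Set.mem_singleton_iff]
    constructor
    · rintro ⟨r, rfl⟩
      by_cases e : r = r0
      · left; rw [e]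
      · right
        exact ⟨⟨r, h2 r e⟩, fun e2 => e (hx.1 i0 _ _ (congrFun ((h2 r e).trans e2) i0))⟩
    · rintro (rfl | ⟨⟨r, rfl⟩, h⟩)
      · exact ⟨r0, rfl⟩
      · exact ⟨r, (h2 r (fun e => h (by rw [e]))).symm⟩

def E (A B : Set (Fin k → ℤ)) : Prop :=
  Relation.ReflTransGen (Move (lattice k)) A B ∧ Relation.ReflTransGen (Move (lattice k)) B A

lemma unit [Finite ι] (i : Fin k) {x : ι → Fin k → ℤ} (hx : Good x) :
    E (Set.range x) (Set.range (fun r => x r + Pi.single i 1)) := by
  classical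
  let y : ℤ → ι → Fin k → ℤ := fun t r j => if j = i ∧ t ≤ x r j then x r j + 1 else x r j
  have hy : ∀ t, Good (y t) := fun t =>
    good_map hx (fun j z => if j = i ∧ t ≤ z then z + 1 else z) (fun j a b hab => by
      simp only
      split_ifs <;> omega)
  have h1 : ∀ t, E (Set.range (y (t + 1))) (Set.range (y t)) := by
    intro t
    have hne : ∀ r, x r i ≠ t → y (t + 1) r = y t r := by
      intro r hr
      funext j
      simp only [y]
      by_cases e : j = i
      · subst e; split_ifs <;> omega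
      · simp [e]
    by_cases h : ∃ r0, x r0 i = t
    · obtain ⟨r0, h0⟩ := h
      have ha : (lattice k).Adj (y (t + 1) r0) (y t r0) :=
        ⟨i, by simp [y, h0], fun j hj => by simp [y, hj]⟩
      have h2 : ∀ r, r ≠ r0 → y (t + 1) r = y t r :=
        fun r hr => hne r (fun e => hr (hx.1 i _ _ (e.trans h0.symm)))
      exact ⟨Relation.ReflTransGen.single (step i (hy _) (hy _) r0 ha h2),
        Relation.ReflTransGen.single (step i (hy _) (hy _) r0 ha.symm (fun r hr => (h2 r hr).symm))⟩
    · push Not at h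
      have : y (t + 1) = y t := funext (fun r => hne r (h r))
      rw [this]
      exact ⟨Relation.ReflTransGen.refl, Relation.ReflTransGen.refl⟩
  have h2 : ∀ (n : ℕ) t, E (Set.range (y (t + n))) (Set.range (y t)) := by
    intro n t
    induction n with
    | zero => simp only [Nat.cast_zero, add_zero]
              exact ⟨Relation.ReflTransGen.refl, Relation.ReflTransGen.refl⟩
    | succ n ih =>
      have := h1 (t + n)
      push_cast
      rw [← add_assoc]
      exact ⟨this.1.trans ih.1, ih.2.trans this.2⟩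
  obtain ⟨M, hM⟩ := (Set.finite_range (fun r => |x r i|)).bddAbove
  have hM' : ∀ r, |x r i| ≤ M := fun r => hM ⟨r, rfl⟩
  have e1 : y (-|M| + ((2 * |M| + 1).toNat : ℕ)) = x := by
    funext r j
    have := abs_le.mp (hM' r)
    have := le_abs_self M
    have := abs_nonneg M
    simp only [y]
    rw [if_neg]
    rintro ⟨rfl, h⟩
    omega
  have e2 : y (-|M|) = fun r => x r + Pi.single i 1 := by
    funext r j
    have := abs_le.mp (hM' r)
    have := le_abs_self M
    simp only [y, Pi.add_apply]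
    by_cases e : j = i
    · subst e
      rw [if_pos ⟨rfl, by omega⟩]; simp
    · simp [e]
  have := h2 (2 * |M| + 1).toNat (-|M|)
  rwa [e1, e2] at this

lemma good_add {x : ι → Fin k → ℤ} (hx : Good x) (v : Fin k → ℤ) : Good (fun r => x r + v) :=
  good_map hx (fun j z => z + v j) (fun _ _ _ h => by simpa using h)

lemma transl [Finite ι] (v : Fin k → ℤ) : ∀ x : ι → Fin k → ℤ, Good x →
    E (Set.range x) (Set.range (fun r => x r + v)) := by
  classical
  let A : AddSubgroup (Fin k → ℤ) :=
    { carrier := {v | ∀ x : ι → Fin k → ℤ, Good x → E (Set.range x) (Set.range (fun r => x r + v))}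
      add_mem' := by
        intro a b ha hb x hx
        have h1 := ha x hx
        have h2 := hb _ (good_add hx a)
        simp only [add_assoc] at h2
        exact ⟨h1.1.trans h2.1, h2.2.trans h1.2⟩
      zero_mem' := fun x _ => by
        simp only [add_zero]
        exact ⟨Relation.ReflTransGen.refl, Relation.ReflTransGen.refl⟩
      neg_mem' := by
        intro a ha x hx
        have h1 := ha _ (good_add hx (-a))
        simp only [neg_add_cancel_right] at h1
        exact ⟨h1.2, h1.1⟩ }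
  have : v ∈ A := by
    rw [pi_eq_sum_univ' v]
    exact A.sum_mem (fun i _ => A.zsmul_mem (fun x hx => unit i hx) _)
  exact this

theorem result (k : ℕ) (hk : 1 ≤ k) :
    IsGreatest {n : ℕ∞ | ∃ S : Set (Fin k → ℤ), Mobile (lattice k) S ∧ S.encard = n}
      ((2 ^ 2 ^ (k - 1) : ℕ) : ℕ∞) := by
  obtain ⟨k, rfl⟩ := Nat.exists_eq_add_of_le' hk
  rw [Nat.add_sub_cancel]
  constructor
  · obtain ⟨ι, _, x, hc, hx⟩ := constr k
    have hne : Nonempty ι := Fintype.card_pos_iff.mp (by rw [hc]; positivity)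
    obtain ⟨r0⟩ := hne
    obtain ⟨e, he⟩ := exists_surjective_nat (Fin (k + 1) → ℤ)
    let w : ℕ → Fin (k + 1) → ℤ := fun n => Nat.casesOn n 0 (fun m => e m - x r0)
    obtain ⟨f, f0, f1, f2⟩ := seq (Move (lattice (k + 1))) (fun n => Set.range (fun r => x r + w n))
      (fun n => ((transl (w n) x hx).2).trans (transl (w (n + 1)) x hx).1)
    refine ⟨Set.range x, ⟨good_gp hx, f, by rw [f0]; simp [w], f1, fun v => ?_⟩, ?_⟩
    · obtain ⟨n, rfl⟩ := he v
      obtain ⟨m, hm⟩ := f2 (n + 1)
      exact ⟨m, by rw [hm]; exact ⟨r0, by simp [w]⟩⟩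
    · have hinj : Function.Injective x := fun r s h => hx.1 0 r s (congrFun h 0)
      rw [← Set.image_univ, hinj.encard_image, ← hc]
      simp
  · rintro n ⟨S, hS, rfl⟩
    exact upper k S ((genpos_iff S).mp hS.1)

end Pool.Agent.Results.MP_903b9e_co.Full
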